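import Mathlib
import Pool.Agent.H159R3.Torus.Results

/-!
The question on maps from complex tori for projective varieties given by few monomials that are high
powers, and for projective varieties given by forms of small Waring rank.
-/

namespace Pool.Agent.Results.MP_45e720_ag.PowerAndWaringVarieties

open MvPolynomial Pool.Agent.H159R3 Pool.Agent.H159R3.Torus

theorem result :
    (DiscreteTopology gauss ∧ Submodule.span ℝ (gauss : Set (Fin 1 → ℂ)) = ⊤) ∧
    ∀ (n : ℕ) (S : Set (MvPolynomial (Fin (n + 1)) ℂ)),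
      (∀ p ∈ S, ∃ d : ℕ, 0 < d ∧ p.IsHomogeneous d) →
      ((∀ p ∈ S, GGL.PowerSparse p) ∨
        ∀ p ∈ S, ∀ d : ℕ, p.IsHomogeneous d → Lang.SmallWaring (RingHom.id ℂ) p d) →
      TorusMapsConstant S gauss →
      ∀ f : ℂ → (Fin (n + 1) → ℂ),
        Differentiable ℂ f →
        (∀ z, f z ≠ 0) →
        (∀ z, ∀ p ∈ S, MvPolynomial.eval (f z) p = 0) →
        ∀ z w, ∃ c : ℂ, f w = c • f z := by
  refine ⟨⟨gauss_discrete, gauss_span⟩, ?_⟩
  intro n S hS hC hT f hf hf0 hfS z w
  rcases hC with hC | hC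
  · exact power S (fun p hp => by
      obtain ⟨d, -, hd⟩ := hS p hp
      exact ⟨d, hd⟩) hC hT f hf hf0 hfS z w
  · exact waring S (fun p hp => by
      obtain ⟨d, hd0, hd⟩ := hS p hp
      exact ⟨d, hd0, hd, hC p hp d hd⟩) hT f hf hf0 hfS z w

end Pool.Agent.Results.MP_45e720_ag.PowerAndWaringVarieties
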